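import Mathlib

/-!
# MP_5f67f4_co: a lexicographic initial segment whose deletion shadow is not minimal

For `r = 4`, `n = 3` and the signature `(1, 0, 1, 1)` the family `F_s` has `36` words and `13` words
in its deletion shadow, while the family of all words `a b c` with `a, b` in `{1, 2, 3}` and `c` in
`{1, 2, 3, 4}` has `36` words as well and only `12` words in its deletion shadow.
-/

set_option autoImplicit false

namespace Pool.Agent.Results.MP_5f67f4_co.Counterexample

/-- The deletion shadow of a family of words of length `m + 1`: all words of length `m` obtained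
from a word of the family by deleting one letter (the one at position `i`). -/
def shadow {r m : ℕ} (F : Finset (Fin (m + 1) → Fin r)) : Finset (Fin m → Fin r) :=
  F.biUnion fun w => Finset.univ.image fun i : Fin (m + 1) => fun j : Fin m => w (i.succAbove j)

/-- `F` has minimal deletion shadow given its size. -/
def HasMinimalShadow {r m : ℕ} (F : Finset (Fin (m + 1) → Fin r)) : Prop :=
  ∀ G : Finset (Fin (m + 1) → Fin r), G.card = F.card → (shadow F).card ≤ (shadow G).card

/-- The number of occurrences in `w` of the letter `x`, the letters being `1, …, r`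
(the letter `x` is the element `x - 1` of `Fin r`). -/
def cnt {r n : ℕ} (x : ℕ) (w : Fin n → Fin r) : ℕ :=
  (Finset.univ.filter fun i => (w i : ℕ) + 1 = x).card

/-- The signature `(c_r(w), c_{r-1}(w), …, c_1(w))` of `w`; the coordinate `i = 0` is `c_r(w)`. -/
def sig {r n : ℕ} (w : Fin n → Fin r) : Fin r → ℕ := fun i => cnt (r - i) w

/-- `p <_L q`: at the first coordinate at which they differ, `p` is smaller than `q`. -/
def LexLt {r : ℕ} (p q : Fin r → ℕ) : Prop := ∃ i, (∀ j < i, p j = q j) ∧ p i < q i

instance {r : ℕ} (p q : Fin r → ℕ) : Decidable (LexLt p q) := by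
  unfold LexLt
  infer_instance

/-- The family `F_s` of all words `w` with `σ(w) ≤_L s`. -/
def initial (r n : ℕ) (s : Fin r → ℕ) : Finset (Fin n → Fin r) :=
  Finset.univ.filter fun w => sig w = s ∨ LexLt (sig w) s

/-- The competitor. -/
def comp : Finset (Fin 3 → Fin 4) :=
  Finset.univ.filter fun w => (w 0 : ℕ) < 3 ∧ (w 1 : ℕ) < 3

theorem card_initial : (initial 4 3 ![1, 0, 1, 1]).card = 36 := by decide +kernel

theorem card_comp : comp.card = 36 := by decide +kernel

theorem card_shadow_initial : (shadow (initial 4 3 ![1, 0, 1, 1])).card = 13 := by decide +kernel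

theorem card_shadow_comp : (shadow comp).card = 12 := by decide +kernel

/-- It is not true that for all `r ≥ 2`, `n = m + 1 ≥ 1` and all signatures `s` (non-negative
integers with sum `n`) the family `F_s` has minimal deletion shadow given its size. -/
theorem result : ¬ ∀ (r m : ℕ) (s : Fin r → ℕ), 2 ≤ r → ∑ i, s i = m + 1 →
    HasMinimalShadow (initial r (m + 1) s) := by
  intro h
  have h1 := h 4 2 ![1, 0, 1, 1] (by norm_num) (by decide) comp (by rw [card_comp, card_initial])
  rw [card_shadow_initial, card_shadow_comp] at h1
  omega

end Pool.Agent.Results.MP_5f67f4_co.Counterexample
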